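import Pool.Agent.Helper29.SA.Trans

set_option autoImplicit false

/-!
# The multisection near the points where it meets its translate
-/

namespace Pool.Agent.Helper29.SA

open Filter Topology

/-- Near the point `p` the set `S` is the graph of the function `g` over the first factor. -/
def IsGraphAt (S : Set (ℂ × ℂ)) (p : ℂ × ℂ) (g : ℂ → ℂ) : Prop :=
  ContDiffAt ℝ (⊤ : ℕ∞) g p.1 ∧ ∀ᶠ q in 𝓝 p, q ∈ S ↔ q.2 = g q.1

/-- Near the point `p` the sets `S` and `S'` are graphs of smooth functions over the first factor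
which cross transversally and positively at `p`. -/
def PosCross (S S' : Set (ℂ × ℂ)) (p : ℂ × ℂ) : Prop :=
  ∃ g g' : ℂ → ℂ, IsGraphAt S p g ∧ IsGraphAt S' p g' ∧ p.2 = g p.1 ∧ p.2 = g' p.1 ∧
    0 < (fderiv ℝ g p.1 - fderiv ℝ g' p.1).det

theorem ev_graph {L2 : AddSubgroup ℂ} (hL : Disc L2) {C : Set (ℂ × ℂ)} {α : Type} [Finite α]
    {F : α → ℂ → ℂ} {x y : ℂ} (hC : ∀ᶠ x' in 𝓝 x, ∀ y', (x', y') ∈ C ↔ ∃ a, y' - F a x' ∈ L2)
    (hF : ∀ a, ContinuousAt (F a) x) (i : α) (hi : y - F i x ∈ L2)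
    (hne : ∀ a, a ≠ i → F i x - F a x ∉ L2) :
    ∀ᶠ q in 𝓝 (x, y), q ∈ C ↔ q.2 = F i q.1 + (y - F i x) := by
  have h1 : Tendsto (fun q : ℂ × ℂ => q.1) (𝓝 (x, y)) (𝓝 x) := continuous_fst.tendsto (x, y)
  have h2 : Tendsto (fun q : ℂ × ℂ => q.2) (𝓝 (x, y)) (𝓝 y) := continuous_snd.tendsto (x, y)
  have hF' : ∀ a, Tendsto (fun q : ℂ × ℂ => q.2 - F a q.1) (𝓝 (x, y)) (𝓝 (y - F a x)) := fun a =>
    h2.sub ((hF a).tendsto.comp h1)
  have e1 : ∀ᶠ q : ℂ × ℂ in 𝓝 (x, y), ∀ a, a ≠ i → q.2 - F a q.1 ∉ L2 := by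
    rw [eventually_all]
    intro a
    by_cases ha : a = i
    · exact Eventually.of_forall fun q hq => absurd ha hq
    · have := ev_notMem hL (hF' a) (z := y - F a x) (by
        intro hm
        apply hne a ha
        have := L2.sub_mem hm hi
        convert this using 1
        ring)
      filter_upwards [this] with q hq _ using hq
  have e2 : ∀ᶠ q : ℂ × ℂ in 𝓝 (x, y), (q.2 - F i q.1) - (y - F i x) ∈ L2 →
      (q.2 - F i q.1) - (y - F i x) = 0 := by
    refine ev_small hL ?_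
    have := (hF' i).sub_const (y - F i x)
    rwa [sub_self] at this
  filter_upwards [h1.eventually hC, e1, e2] with q q1 q2 q3
  have q1' := q1 q.2
  rw [Prod.mk.eta] at q1'
  rw [q1']
  constructor
  · rintro ⟨a, ha⟩
    by_cases hai : a = i
    · subst hai
      have := q3 (L2.sub_mem ha hi)
      linear_combination this
    · exact absurd ha (q2 a hai)
  · intro h
    refine ⟨i, ?_⟩
    rw [h]
    convert hi using 1
    ring

theorem det_smul (z : ℂ) (A : ℂ →L[ℝ] ℂ) : (z • A).det = Complex.normSq z * A.det := by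
  have h1 : ((z • A : ℂ →L[ℝ] ℂ) : ℂ →ₗ[ℝ] ℂ) = (LinearMap.mul ℝ ℂ z) ∘ₗ (A : ℂ →ₗ[ℝ] ℂ) := by
    ext v
    all_goals simp
  have h2 : LinearMap.det (LinearMap.mul ℝ ℂ z) = Complex.normSq z := by
    rw [← Algebra.norm_complex_apply]
    rfl
  show LinearMap.det ((z • A : ℂ →L[ℝ] ℂ) : ℂ →ₗ[ℝ] ℂ) = _
  rw [h1, LinearMap.det_comp, h2]

theorem det_mul (z : ℂ) : (z • ContinuousLinearMap.id ℝ ℂ).det = Complex.normSq z := by
  rw [det_smul]
  have : (ContinuousLinearMap.id ℝ ℂ).det = 1 := by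
    show LinearMap.det ((ContinuousLinearMap.id ℝ ℂ : ℂ →L[ℝ] ℂ) : ℂ →ₗ[ℝ] ℂ) = 1
    simp
  rw [this, mul_one]

/-- The translate of `C` along the fibre. -/
def tr (C : Set (ℂ × ℂ)) (t : ℂ) : Set (ℂ × ℂ) := {p | (p.1, p.2 - t) ∈ C}

theorem isGraphAt_tr {C : Set (ℂ × ℂ)} {p : ℂ × ℂ} {t : ℂ} {g : ℂ → ℂ}
    (h : IsGraphAt C (p.1, p.2 - t) g) : IsGraphAt (tr C t) p (fun x => g x + t) := by
  refine ⟨h.1.add contDiffAt_const, ?_⟩
  have h1 : Tendsto (fun q : ℂ × ℂ => (q.1, q.2 - t)) (𝓝 p) (𝓝 (p.1, p.2 - t)) := by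
    have : Continuous fun q : ℂ × ℂ => (q.1, q.2 - t) := by fun_prop
    exact this.tendsto p
  filter_upwards [h1.eventually h.2] with q hq
  show (q.1, q.2 - t) ∈ C ↔ _
  rw [hq]
  exact sub_eq_iff_eq_add

/-- The crossings near a multiple point. -/
theorem NearMult.cross {L2 : AddSubgroup ℂ} {C : Set (ℂ × ℂ)} (hL : Disc L2) {k m : ℕ} {c y₀ : ℂ}
    {s : Fin k → ℂ} {f : Fin m → ℂ → ℂ} (h : NearMult L2 C c y₀ s f) :
    ∀ᶠ p : ℂ × ℂ in 𝓝 (c, 0), p.2 ≠ 0 → ∀ y, (p.1, y) ∈ C → (p.1, y - p.2) ∈ C →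
      PosCross C (tr C p.2) (p.1, y) := by
  have h1 : Tendsto (fun p : ℂ × ℂ => p.1) (𝓝 (c, 0)) (𝓝 c) := continuous_fst.tendsto (c, 0)
  have h3 : Tendsto (fun x : ℂ => x - c) (𝓝 c) (𝓝 0) := by
    have : Tendsto (fun x : ℂ => x - c) (𝓝 c) (𝓝 (c - c)) := tendsto_id.sub_const c
    rwa [sub_self] at this
  have hl : ∀ i, Tendsto (fun x : ℂ => y₀ + s i * (x - c)) (𝓝 c) (𝓝 y₀) := by
    intro i
    have := (h3.const_mul (s i)).const_add y₀
    rwa [mul_zero, add_zero] at this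
  have e1 : ∀ᶠ x : ℂ in 𝓝 c, ∀ i i', (s i - s i') * (x - c) ∈ L2 → (s i - s i') * (x - c) = 0 := by
    rw [eventually_all]
    intro i
    rw [eventually_all]
    intro i'
    refine ev_small hL ?_
    have := h3.const_mul (s i - s i')
    rwa [mul_zero] at this
  have e4 : ∀ᶠ x : ℂ in 𝓝 c, ∀ i j, y₀ + s i * (x - c) - f j x ∉ L2 := by
    rw [eventually_all]
    intro i
    rw [eventually_all]
    intro j
    exact ev_notMem hL ((hl i).sub (h.cont j).self_of_nhds.tendsto) (h.ne' i j)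
  have e5 : ∀ᶠ x : ℂ in 𝓝 c, ∀ j, ContinuousAt (f j) x := by
    rw [eventually_all]
    exact h.cont
  filter_upwards [h.trans hL, h1.eventually h.mem.eventually_nhds, h1.eventually e1,
    h1.eventually e4, h1.eventually e5] with p q1 q2 q3 q4 q5 hne y hy1 hy2
  obtain ⟨i, i', hii, hx, hyi⟩ := (q1 hne y).mp ⟨hy1, hy2⟩
  have hxc : p.1 - c ≠ 0 := by
    intro h0
    rw [h0, mul_zero] at hx
    exact hne hx.symm
  have hyi' : (y - p.2) - (y₀ + s i' * (p.1 - c)) ∈ L2 := by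
    rw [← hx]
    convert hyi using 1
    ring
  -- the local form
  have key : ∀ a, ∀ y', y' - (y₀ + s a * (p.1 - c)) ∈ L2 →
      IsGraphAt C (p.1, y') (fun x => y₀ + s a * (x - c) + (y' - (y₀ + s a * (p.1 - c)))) := by
    intro a y' hy'
    refine ⟨by
      have : ContDiff ℝ (⊤ : ℕ∞) fun x : ℂ =>
        y₀ + s a * (x - c) + (y' - (y₀ + s a * (p.1 - c))) := by fun_prop
      exact this.contDiffAt, ?_⟩
    refine ev_graph hL (α := Fin k ⊕ Fin m)
      (F := Sum.elim (fun a x => y₀ + s a * (x - c)) f) (x := p.1) (y := y') ?_ ?_ (Sum.inl a) hy' ?_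
    · filter_upwards [q2] with x hx y''
      rw [hx y'', Sum.exists]
      rfl
    · rintro (a' | j)
      · show ContinuousAt (fun x => y₀ + s a' * (x - c)) p.1
        fun_prop
      · exact q5 j
    · rintro (a' | j) ha'
      · show y₀ + s a * (p.1 - c) - (y₀ + s a' * (p.1 - c)) ∉ L2
        intro hm
        have h4 : (s a - s a') * (p.1 - c) ∈ L2 := by
          convert hm using 1
          ring
        have h5 := q3 a a' h4
        rcases mul_eq_zero.mp h5 with h6 | h6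
        · exact ha' (by rw [h.inj (sub_eq_zero.mp h6)])
        · exact hxc h6
      · exact q4 a j
  have hd : ∀ (a : Fin k) (z : ℂ), HasFDerivAt (𝕜 := ℝ)
      (fun x => y₀ + s a * (x - c) + z) (s a • ContinuousLinearMap.id ℝ ℂ) p.1 := by
    intro a z
    have h6 : HasFDerivAt (𝕜 := ℝ) (fun x : ℂ => x - c) (ContinuousLinearMap.id ℝ ℂ) p.1 :=
      (hasFDerivAt_id p.1).sub_const c
    have h7 := ((h6.const_mul (s a)).const_add y₀).add_const z
    exact h7
  refine ⟨_, _, key i y hyi, isGraphAt_tr (p := (p.1, y)) (key i' (y - p.2) hyi'), by ring, by ring,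
    ?_⟩
  have h8 := (hd i (y - (y₀ + s i * (p.1 - c)))).fderiv
  have h9 := ((hd i' (y - p.2 - (y₀ + s i' * (p.1 - c)))).add_const p.2).fderiv
  simp only at h8 h9 ⊢
  rw [h8, h9, ← sub_smul, det_mul]
  rw [Complex.normSq_pos, sub_ne_zero]
  exact fun h10 => hii (h.inj h10)

/-- A smooth square root near a point. -/
theorem exists_root {A : ℂ →L[ℝ] ℂ} {b x t : ℂ} (ht : t ≠ 0) (hx : A (x - b) = (t / 2) ^ 2) :
    ∃ h : ℂ → ℂ, ContDiffAt ℝ (⊤ : ℕ∞) h x ∧ h x = t / 2 ∧ (∀ᶠ x' in 𝓝 x, h x' ^ 2 = A (x' - b)) ∧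
      HasFDerivAt (𝕜 := ℝ) h ((1 / t) • A) x := by
  have ht2 : (t / 2) ^ 2 ≠ 0 := pow_ne_zero 2 (div_ne_zero ht two_ne_zero)
  let g : ℂ → ℂ := fun x' => A (x' - b) / (t / 2) ^ 2
  let φ : ℂ → ℂ := fun z => t / 2 * Complex.exp (1 / 2 * Complex.log z)
  have hg1 : g x = 1 := by
    show A (x - b) / (t / 2) ^ 2 = 1
    rw [hx, div_self ht2]
  have hgs : ContDiff ℝ (⊤ : ℕ∞) g := by
    have h1 : ContDiff ℝ (⊤ : ℕ∞) fun x' : ℂ => A (x' - b) :=
      A.contDiff.comp (contDiff_id.sub contDiff_const)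
    exact h1.div_const _
  have hφs : ContDiffAt ℝ (⊤ : ℕ∞) φ (g x) := by
    rw [hg1]
    have h1 : ContDiffAt ℂ (⊤ : ℕ∞) Complex.log 1 := Complex.contDiffAt_log (by simp)
    have h2 : ContDiffAt ℂ (⊤ : ℕ∞) φ 1 :=
      contDiffAt_const.mul ((contDiffAt_const.mul h1).cexp)
    exact h2.restrict_scalars ℝ
  have hφ' : HasDerivAt φ (t / 4) 1 := by
    have h1 : HasDerivAt Complex.log 1⁻¹ 1 := Complex.hasDerivAt_log (by simp)
    have h2 := ((h1.const_mul (1 / 2 : ℂ)).cexp).const_mul (t / 2)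
    have h3 : t / 2 * (Complex.exp (1 / 2 * Complex.log 1) * (1 / 2 * 1⁻¹)) = t / 4 := by
      rw [Complex.log_one, mul_zero, Complex.exp_zero]
      ring
    rw [h3] at h2
    exact h2
  refine ⟨φ ∘ g, hφs.comp x hgs.contDiffAt, ?_, ?_, ?_⟩
  · show t / 2 * Complex.exp (1 / 2 * Complex.log (g x)) = t / 2
    rw [hg1, Complex.log_one, mul_zero, Complex.exp_zero, mul_one]
  · have h1 : ∀ᶠ x' in 𝓝 x, g x' ≠ 0 := by
      refine hgs.continuous.continuousAt.eventually_ne ?_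
      rw [hg1]
      exact one_ne_zero
    filter_upwards [h1] with x' hx'
    show (t / 2 * Complex.exp (1 / 2 * Complex.log (g x'))) ^ 2 = A (x' - b)
    rw [mul_pow, ← Complex.exp_nat_mul]
    have h2 : ((2 : ℕ) : ℂ) * (1 / 2 * Complex.log (g x')) = Complex.log (g x') := by
      push_cast
      ring
    rw [h2, Complex.exp_log hx']
    show (t / 2) ^ 2 * (A (x' - b) / (t / 2) ^ 2) = A (x' - b)
    field_simp
  · have h1 : HasFDerivAt (𝕜 := ℝ) g ((1 / (t / 2) ^ 2 : ℂ) • A) x := by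
      have h2 : HasFDerivAt (𝕜 := ℝ) (fun x' : ℂ => A (x' - b)) A x := by
        have h3 := A.hasFDerivAt (x := x - b)
        have h4 : HasFDerivAt (𝕜 := ℝ) (fun x' : ℂ => x' - b) (ContinuousLinearMap.id ℝ ℂ) x :=
          (hasFDerivAt_id x).sub_const b
        exact h3.comp x h4
      have h5 := h2.const_mul (1 / (t / 2) ^ 2 : ℂ)
      refine h5.congr_of_eventuallyEq (Eventually.of_forall fun x' => ?_)
      show A (x' - b) / (t / 2) ^ 2 = 1 / (t / 2) ^ 2 * A (x' - b)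
      ring
    have h6 : HasFDerivAt (𝕜 := ℝ) φ ((t / 4) • ContinuousLinearMap.id ℝ ℂ) (g x) := by
      rw [hg1]
      have h7 := hφ'.hasFDerivAt.restrictScalars ℝ
      refine h7.congr_fderiv ?_
      refine ContinuousLinearMap.ext fun v => ?_
      show v • (t / 4) = t / 4 * v
      rw [smul_eq_mul, mul_comm]
    have h8 := h6.comp x h1
    refine h8.congr_fderiv ?_
    refine ContinuousLinearMap.ext fun v => ?_
    show t / 4 * (1 / (t / 2) ^ 2 * A v) = 1 / t * A v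
    field_simp
    ring

/-- The crossings near a branch point. -/
theorem NearBranch.cross {L2 : AddSubgroup ℂ} {C : Set (ℂ × ℂ)} (hL : Disc L2) {m : ℕ}
    {b y₀ : ℂ} {A : ℂ →L[ℝ] ℂ} {f : Fin m → ℂ → ℂ} (h : NearBranch L2 C b y₀ A f) :
    ∀ᶠ p : ℂ × ℂ in 𝓝 (b, 0), p.2 ≠ 0 → ∀ y, (p.1, y) ∈ C → (p.1, y - p.2) ∈ C →
      PosCross C (tr C p.2) (p.1, y) := by
  have h1 : Tendsto (fun p : ℂ × ℂ => p.1) (𝓝 (b, 0)) (𝓝 b) := continuous_fst.tendsto (b, 0)
  have h2 : Tendsto (fun p : ℂ × ℂ => p.2) (𝓝 (b, 0)) (𝓝 0) := continuous_snd.tendsto (b, 0)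
  have hf : ∀ j, Tendsto (fun p : ℂ × ℂ => f j p.1) (𝓝 (b, 0)) (𝓝 (f j b)) := fun j =>
    (h.cont j).self_of_nhds.tendsto.comp h1
  have e1 : ∀ᶠ p : ℂ × ℂ in 𝓝 (b, 0), p.2 ∈ L2 → p.2 = 0 := ev_small hL h2
  have e2 : ∀ᶠ p : ℂ × ℂ in 𝓝 (b, 0), ∀ j, y₀ + p.2 / 2 - f j p.1 ∉ L2 := by
    rw [eventually_all]
    intro j
    refine ev_notMem hL (((h2.div_const 2).const_add y₀).sub (hf j)) ?_
    rw [zero_div, add_zero]
    exact h.ne' j
  have e3 : ∀ᶠ p : ℂ × ℂ in 𝓝 (b, 0), ∀ j, y₀ - p.2 / 2 - f j p.1 ∉ L2 := by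
    rw [eventually_all]
    intro j
    refine ev_notMem hL (((h2.div_const 2).const_sub y₀).sub (hf j)) ?_
    rw [zero_div, sub_zero]
    exact h.ne' j
  have e5 : ∀ᶠ x : ℂ in 𝓝 b, ∀ j, ContinuousAt (f j) x := by
    rw [eventually_all]
    exact h.cont
  filter_upwards [h.trans hL, h1.eventually h.mem.eventually_nhds, e1, e2, e3, h1.eventually e5]
    with p q1 q2 q3 q4 q5 q6 hne y hy1 hy2
  obtain ⟨hx, hyl⟩ := (q1 hne y).mp ⟨hy1, hy2⟩
  obtain ⟨r, hrs, hrx, hr2, hr'⟩ := exists_root hne hx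
  have hr'2 : HasFDerivAt (𝕜 := ℝ) (fun x => -r x) (-((1 / p.2) • A)) p.1 := hr'.neg
  have hC : ∀ᶠ x' in 𝓝 p.1, ∀ y', (x', y') ∈ C ↔ ∃ a : Bool ⊕ Fin m,
      y' - (Sum.elim (fun (ε : Bool) x => if ε then y₀ + r x else y₀ + -r x) f : Bool ⊕ Fin m →
        ℂ → ℂ) a x' ∈ L2 := by
    filter_upwards [q2, hr2] with x' hx' hx2 y'
    rw [hx', Sum.exists]
    refine or_congr ?_ Iff.rfl
    simp only [Sum.elim_inl, Bool.exists_bool, Bool.false_eq_true, if_false, if_true]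
    rw [← hx2]
    constructor
    · rintro ⟨l, hl, hu⟩
      rcases sq_eq_sq_iff_eq_or_eq_neg.mp hu with h3 | h3
      · right
        have : y' - (y₀ + r x') = l := by rw [← h3]; ring
        rw [this]
        exact hl
      · left
        have : y' - (y₀ + -r x') = l := by rw [← h3]; ring
        rw [this]
        exact hl
    · rintro (h3 | h3)
      · exact ⟨_, h3, by ring⟩
      · exact ⟨_, h3, by ring⟩
  have hFc : ∀ a : Bool ⊕ Fin m, ContinuousAt ((Sum.elim (fun (ε : Bool) x => if ε then y₀ + r x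
      else y₀ + -r x) f : Bool ⊕ Fin m → ℂ → ℂ) a) p.1 := by
    rintro (ε | j)
    · cases ε
      · show ContinuousAt (fun x => if (false : Bool) then y₀ + r x else y₀ + -r x) p.1
        simp only [Bool.false_eq_true, if_false]
        exact continuousAt_const.add hrs.continuousAt.neg
      · show ContinuousAt (fun x => if (true : Bool) then y₀ + r x else y₀ + -r x) p.1
        simp only [if_true]
        exact continuousAt_const.add hrs.continuousAt
    · exact q6 j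
  have hp2 : p.2 ∉ L2 := fun hm => hne (q3 hm)
  have g1 := ev_graph hL hC hFc (Sum.inl true) (y := y) (by
    show y - (if (true : Bool) then y₀ + r p.1 else y₀ + -r p.1) ∈ L2
    rw [if_pos rfl, hrx]
    exact hyl) (by
    rintro (ε | j) ha
    · cases ε
      · show (if (true : Bool) then y₀ + r p.1 else y₀ + -r p.1) -
          (if (false : Bool) then y₀ + r p.1 else y₀ + -r p.1) ∉ L2
        rw [if_pos rfl, if_neg (by decide), hrx]
        convert hp2 using 2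
        ring
      · exact absurd rfl ha
    · show (if (true : Bool) then y₀ + r p.1 else y₀ + -r p.1) - f j p.1 ∉ L2
      rw [if_pos rfl, hrx]
      exact q4 j)
  have g2 := ev_graph hL hC hFc (Sum.inl false) (y := y - p.2) (by
    show y - p.2 - (if (false : Bool) then y₀ + r p.1 else y₀ + -r p.1) ∈ L2
    rw [if_neg (by decide), hrx]
    convert hyl using 1
    ring) (by
    rintro (ε | j) ha
    · cases ε
      · exact absurd rfl ha
      · show (if (false : Bool) then y₀ + r p.1 else y₀ + -r p.1) -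
          (if (true : Bool) then y₀ + r p.1 else y₀ + -r p.1) ∉ L2
        rw [if_pos rfl, if_neg (by decide), hrx]
        intro hm
        apply hp2
        have := L2.neg_mem hm
        convert this using 1
        ring
    · show (if (false : Bool) then y₀ + r p.1 else y₀ + -r p.1) - f j p.1 ∉ L2
      rw [if_neg (by decide), hrx]
      convert q5 j using 2
      ring)
  simp only [Sum.elim_inl, if_true, Bool.false_eq_true, if_false] at g1 g2
  have G1 : IsGraphAt C (p.1, y) (fun x => y₀ + r x + (y - (y₀ + r p.1))) :=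
    ⟨(contDiffAt_const.add hrs).add contDiffAt_const, g1⟩
  have G2 : IsGraphAt C (p.1, y - p.2) (fun x => y₀ + -r x + (y - p.2 - (y₀ + -r p.1))) :=
    ⟨(contDiffAt_const.add hrs.neg).add contDiffAt_const, g2⟩
  refine ⟨_, _, G1, isGraphAt_tr (p := (p.1, y)) G2, by ring, by ring, ?_⟩
  have h8 := ((hr'.const_add y₀).add_const (y - (y₀ + r p.1))).fderiv
  have h9 := (((hr'2.const_add y₀).add_const (y - p.2 - (y₀ + -r p.1))).add_const p.2).fderiv
  simp only at h8 h9 ⊢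
  rw [h8, h9, sub_neg_eq_add, ← add_smul, det_smul]
  refine mul_pos ?_ h.pos
  rw [Complex.normSq_pos]
  have : (1 / p.2 + 1 / p.2 : ℂ) = 2 / p.2 := by ring
  rw [this]
  exact div_ne_zero two_ne_zero hne

end Pool.Agent.Helper29.SA
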