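import Pool.Agent.Helper29.SA.Local

set_option autoImplicit false

/-!
# The self-intersection number of a multisection of the four-torus
-/

namespace Pool.Agent.Helper29.SA

open Filter Topology

/-- A multisection of the torus `(ℂ × ℂ) / (L1 × L2)` over `ℂ / L1`: a set which is, modulo the
lattices, locally over the base a union of disjoint graphs, except over the points `c a`, where
`k a` of the graphs are complex lines through the point `(c a, y a)`, and over the branch points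
`b β`, where two of the graphs are replaced by a parabola. -/
structure IsMultisection (L1 L2 : AddSubgroup ℂ) (C : Set (ℂ × ℂ)) {Q B : Type} (k : Q → ℕ)
    (c y : Q → ℂ) (s : ∀ a, Fin (k a) → ℂ) (b z : B → ℂ) (A : B → ℂ →L[ℝ] ℂ) : Prop where
  per : ∀ p ∈ C, ∀ l ∈ L1, ∀ l' ∈ L2, (p.1 + l, p.2 + l') ∈ C
  mult : ∀ a, ∃ (m : ℕ) (f : Fin m → ℂ → ℂ), NearMult L2 C (c a) (y a) (s a) f
  branch : ∀ β, ∃ (m : ℕ) (f : Fin m → ℂ → ℂ), NearBranch L2 C (b β) (z β) (A β) f
  generic : ∀ x, (∀ a, x - c a ∉ L1) → (∀ β, x - b β ∉ L1) →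
    ∃ (m : ℕ) (f : Fin m → ℂ → ℂ), NearMult L2 C x 0 (Fin.elim0 : Fin 0 → ℂ) f
  ne_mult : ∀ a a', a ≠ a' → c a - c a' ∉ L1
  ne_branch : ∀ β β', β ≠ β' → b β - b β' ∉ L1
  ne : ∀ a β, c a - b β ∉ L1

theorem PosCross.shift {S S' : Set (ℂ × ℂ)} {x y l : ℂ}
    (hS : ∀ p : ℂ × ℂ, p ∈ S ↔ (p.1 - l, p.2) ∈ S)
    (hS' : ∀ p : ℂ × ℂ, p ∈ S' ↔ (p.1 - l, p.2) ∈ S') (h : PosCross S S' (x - l, y)) :
    PosCross S S' (x, y) := by
  obtain ⟨g, g', ⟨h1, h2⟩, ⟨h1', h2'⟩, h3, h4, h5⟩ := h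
  have ht : Tendsto (fun q : ℂ × ℂ => (q.1 - l, q.2)) (𝓝 (x, y)) (𝓝 (x - l, y)) := by
    have : Continuous fun q : ℂ × ℂ => (q.1 - l, q.2) := by fun_prop
    exact this.tendsto (x, y)
  have hs : ContDiffAt ℝ (⊤ : ℕ∞) (fun x : ℂ => x - l) x := by
    have : ContDiff ℝ (⊤ : ℕ∞) (fun x : ℂ => x - l) := by fun_prop
    exact this.contDiffAt
  refine ⟨fun x => g (x - l), fun x => g' (x - l), ⟨h1.comp x hs, ?_⟩, ⟨h1'.comp x hs, ?_⟩, h3, h4,
    ?_⟩
  · filter_upwards [ht.eventually h2] with q hq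
    rw [hS, hq]
  · filter_upwards [ht.eventually h2'] with q hq
    rw [hS', hq]
  · show 0 < (fderiv ℝ (fun x => g (x - l)) x - fderiv ℝ (fun x => g' (x - l)) x).det
    rw [fderiv_comp_sub, fderiv_comp_sub]
    exact h5

/-- The inverse of a real linear map with positive determinant. -/
theorem exists_inv {A : ℂ →L[ℝ] ℂ} (h : 0 < A.det) :
    ∃ Ai : ℂ →L[ℝ] ℂ, (∀ v, A (Ai v) = v) ∧ ∀ v, Ai (A v) = v := by
  have hu : IsUnit (LinearMap.det (A : ℂ →ₗ[ℝ] ℂ)) := (ne_of_gt h).isUnit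
  let e := LinearMap.equivOfDetNeZero (A : ℂ →ₗ[ℝ] ℂ) (ne_of_gt h)
  refine ⟨LinearMap.toContinuousLinearMap (e.symm : ℂ →ₗ[ℝ] ℂ), fun v => ?_, fun v => ?_⟩
  · exact e.apply_symm_apply v
  · exact e.symm_apply_apply v

section main

variable {L1 L2 : AddSubgroup ℂ} {C : Set (ℂ × ℂ)} {Q B : Type} {k : Q → ℕ}
  {c y : Q → ℂ} {s : ∀ a, Fin (k a) → ℂ} {b z : B → ℂ} {A : B → ℂ →L[ℝ] ℂ}

/-- The labels of the crossings of `C` with its translate. -/
abbrev Lab (Q B : Type) (k : Q → ℕ) : Type :=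
  (Σ a : Q, {p : Fin (k a) × Fin (k a) // p.1 ≠ p.2}) ⊕ B

/-- The crossings of `C` with its translate. -/
noncomputable def crossPt (c y : Q → ℂ) (s : ∀ a, Fin (k a) → ℂ) (b z : B → ℂ)
    (Ai : B → ℂ →L[ℝ] ℂ) (t : ℂ) : Lab Q B k → ℂ × ℂ
  | Sum.inl ⟨a, p⟩ => (c a + t / (s a p.1.1 - s a p.1.2),
      y a + s a p.1.1 * (t / (s a p.1.1 - s a p.1.2)))
  | Sum.inr β => (b β + Ai β ((t / 2) ^ 2), z β + t / 2)

theorem crossPt_tendsto (Ai : B → ℂ →L[ℝ] ℂ) (ι : Lab Q B k) :
    Tendsto (fun t => crossPt c y s b z Ai t ι) (𝓝 0)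
      (𝓝 (match ι with
        | Sum.inl ⟨a, _⟩ => (c a, y a)
        | Sum.inr β => (b β, z β))) := by
  rcases ι with ⟨a, p⟩ | β
  · show Tendsto (fun t => (c a + t / (s a p.1.1 - s a p.1.2),
      y a + s a p.1.1 * (t / (s a p.1.1 - s a p.1.2)))) (𝓝 0) (𝓝 (c a, y a))
    have : Continuous fun t : ℂ => (c a + t / (s a p.1.1 - s a p.1.2),
      y a + s a p.1.1 * (t / (s a p.1.1 - s a p.1.2))) := by fun_prop
    have h := this.tendsto 0
    simpa using h
  · show Tendsto (fun t => (b β + Ai β ((t / 2) ^ 2), z β + t / 2)) (𝓝 0) (𝓝 (b β, z β))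
    have : Continuous fun t : ℂ => (b β + Ai β ((t / 2) ^ 2), z β + t / 2) := by fun_prop
    have h := this.tendsto 0
    simpa using h

theorem IsMultisection.per_iff (h : IsMultisection L1 L2 C k c y s b z A) {l l' : ℂ}
    (hl : l ∈ L1) (hl' : l' ∈ L2) (p : ℂ × ℂ) : p ∈ C ↔ (p.1 - l, p.2 - l') ∈ C := by
  constructor
  · intro hp
    have := h.per p hp (-l) (L1.neg_mem hl) (-l') (L2.neg_mem hl')
    rwa [← sub_eq_add_neg, ← sub_eq_add_neg] at this
  · intro hp
    have := h.per _ hp l hl l' hl'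
    simpa using this

theorem IsMultisection.tr_iff (h : IsMultisection L1 L2 C k c y s b z A) {l l' t : ℂ}
    (hl : l ∈ L1) (hl' : l' ∈ L2) (p : ℂ × ℂ) : p ∈ tr C t ↔ (p.1 - l, p.2 - l') ∈ tr C t := by
  show (p.1, p.2 - t) ∈ C ↔ (p.1 - l, p.2 - l' - t) ∈ C
  rw [h.per_iff hl hl']
  have : p.2 - t - l' = p.2 - l' - t := by ring
  rw [this]

/-- Every crossing is, modulo the lattice, one of the expected ones, and it is positive. -/
theorem IsMultisection.near (h : IsMultisection L1 L2 C k c y s b z A) (hL2 : Disc L2)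
    {Ai : B → ℂ →L[ℝ] ℂ} (hAi : ∀ β v, Ai β (A β v) = v) (x₀ : ℂ) :
    ∀ᶠ w : ℂ × ℂ in 𝓝 (0, x₀), w.1 ≠ 0 → ∀ η, (w.2, η) ∈ C → (w.2, η - w.1) ∈ C →
      (∃ ι, w.2 - (crossPt c y s b z Ai w.1 ι).1 ∈ L1 ∧
        η - (crossPt c y s b z Ai w.1 ι).2 ∈ L2) ∧ PosCross C (tr C w.1) (w.2, η) := by
  by_cases hc : ∃ a, x₀ - c a ∈ L1
  · obtain ⟨a, ha⟩ := hc
    obtain ⟨m, f, hf⟩ := h.mult a
    have ht : Tendsto (fun w : ℂ × ℂ => (w.2 - (x₀ - c a), w.1)) (𝓝 (0, x₀)) (𝓝 (c a, 0)) := by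
      have : Continuous fun w : ℂ × ℂ => (w.2 - (x₀ - c a), w.1) := by fun_prop
      have h1 := this.tendsto (0, x₀)
      simpa using h1
    filter_upwards [ht.eventually (hf.trans hL2), ht.eventually (hf.cross hL2)] with w h1 h2 h3 η
      h4 h5
    have hz : (0 : ℂ) ∈ L2 := L2.zero_mem
    have h4' : (w.2 - (x₀ - c a), η) ∈ C := by
      have := (h.per_iff ha hz (w.2, η)).mp h4
      simpa using this
    have h5' : (w.2 - (x₀ - c a), η - w.1) ∈ C := by
      have := (h.per_iff ha hz (w.2, η - w.1)).mp h5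
      simpa using this
    obtain ⟨i, i', hii, hx, hy⟩ := (h1 h3 η).mp ⟨h4', h5'⟩
    have hne : s a i - s a i' ≠ 0 := sub_ne_zero.mpr fun h => hii (hf.inj h)
    have hx' : w.2 - (x₀ - c a) - c a = w.1 / (s a i - s a i') := by
      rw [eq_div_iff hne, mul_comm]
      exact hx
    refine ⟨⟨Sum.inl ⟨a, ⟨(i, i'), hii⟩⟩, ?_, ?_⟩, ?_⟩
    · show w.2 - (c a + w.1 / (s a i - s a i')) ∈ L1
      rw [← hx']
      convert ha using 1
      ring
    · show η - (y a + s a i * (w.1 / (s a i - s a i'))) ∈ L2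
      rw [← hx']
      exact hy
    · refine PosCross.shift (l := x₀ - c a) ?_ ?_ (h2 h3 η h4' h5')
      · intro p
        have := h.per_iff ha hz p
        rwa [sub_zero] at this
      · intro p
        have := h.tr_iff (t := w.1) ha hz p
        rwa [sub_zero] at this
  · by_cases hb : ∃ β, x₀ - b β ∈ L1
    · obtain ⟨β, ha⟩ := hb
      obtain ⟨m, f, hf⟩ := h.branch β
      have ht : Tendsto (fun w : ℂ × ℂ => (w.2 - (x₀ - b β), w.1)) (𝓝 (0, x₀)) (𝓝 (b β, 0)) := by
        have : Continuous fun w : ℂ × ℂ => (w.2 - (x₀ - b β), w.1) := by fun_prop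
        have h1 := this.tendsto (0, x₀)
        simpa using h1
      filter_upwards [ht.eventually (hf.trans hL2), ht.eventually (hf.cross hL2)] with w h1 h2 h3 η
        h4 h5
      have hz : (0 : ℂ) ∈ L2 := L2.zero_mem
      have h4' : (w.2 - (x₀ - b β), η) ∈ C := by
        have := (h.per_iff ha hz (w.2, η)).mp h4
        simpa using this
      have h5' : (w.2 - (x₀ - b β), η - w.1) ∈ C := by
        have := (h.per_iff ha hz (w.2, η - w.1)).mp h5
        simpa using this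
      obtain ⟨hx, hy⟩ := (h1 h3 η).mp ⟨h4', h5'⟩
      have hx' : w.2 - (x₀ - b β) - b β = Ai β ((w.1 / 2) ^ 2) := by
        rw [← hx, hAi]
      refine ⟨⟨Sum.inr β, ?_, ?_⟩, ?_⟩
      · show w.2 - (b β + Ai β ((w.1 / 2) ^ 2)) ∈ L1
        rw [← hx']
        convert ha using 1
        ring
      · show η - (z β + w.1 / 2) ∈ L2
        exact hy
      · refine PosCross.shift (l := x₀ - b β) ?_ ?_ (h2 h3 η h4' h5')
        · intro p
          have := h.per_iff ha hz p
          rwa [sub_zero] at this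
        · intro p
          have := h.tr_iff (t := w.1) ha hz p
          rwa [sub_zero] at this
    · push Not at hc hb
      obtain ⟨m, f, hf⟩ := h.generic x₀ hc hb
      have ht : Tendsto (fun w : ℂ × ℂ => (w.2, w.1)) (𝓝 (0, x₀)) (𝓝 (x₀, 0)) := by
        have : Continuous fun w : ℂ × ℂ => (w.2, w.1) := by fun_prop
        exact this.tendsto (0, x₀)
      filter_upwards [ht.eventually (hf.trans hL2)] with w h1 h3 η h4 h5
      obtain ⟨i, -⟩ := (h1 h3 η).mp ⟨h4, h5⟩
      exact i.elim0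

/-- The expected crossings are crossings. -/
theorem IsMultisection.crossPt_mem (h : IsMultisection L1 L2 C k c y s b z A) (hL2 : Disc L2)
    {Ai : B → ℂ →L[ℝ] ℂ} (hAi : ∀ β v, A β (Ai β v) = v) (ι : Lab Q B k) :
    ∀ᶠ t : ℂ in 𝓝 0, t ≠ 0 → crossPt c y s b z Ai t ι ∈ C ∩ tr C t := by
  have h0 := crossPt_tendsto (c := c) (y := y) (s := s) (b := b) (z := z) Ai ι
  rcases ι with ⟨a, p⟩ | β
  · obtain ⟨m, f, hf⟩ := h.mult a
    have h1 : Tendsto (fun t => ((crossPt c y s b z Ai t (Sum.inl ⟨a, p⟩)).1, t)) (𝓝 0)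
        (𝓝 (c a, 0)) := by
      have h2 := (continuous_fst.tendsto _).comp h0
      exact h2.prodMk_nhds tendsto_id
    filter_upwards [h1.eventually (hf.trans hL2)] with t ht hne
    have hne' : s a p.1.1 - s a p.1.2 ≠ 0 := sub_ne_zero.mpr fun h => p.2 (hf.inj h)
    refine (ht hne (crossPt c y s b z Ai t (Sum.inl ⟨a, p⟩)).2).mpr ⟨p.1.1, p.1.2, p.2, ?_, ?_⟩
    · show (s a p.1.1 - s a p.1.2) * (c a + t / (s a p.1.1 - s a p.1.2) - c a) = t
      rw [add_sub_cancel_left, mul_div_cancel₀ _ hne']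
    · show y a + s a p.1.1 * (t / (s a p.1.1 - s a p.1.2)) -
        (y a + s a p.1.1 * (c a + t / (s a p.1.1 - s a p.1.2) - c a)) ∈ L2
      rw [add_sub_cancel_left, sub_self]
      exact L2.zero_mem
  · obtain ⟨m, f, hf⟩ := h.branch β
    have h1 : Tendsto (fun t => ((crossPt c y s b z Ai t (Sum.inr β)).1, t)) (𝓝 0)
        (𝓝 (b β, 0)) := by
      have h2 := (continuous_fst.tendsto _).comp h0
      exact h2.prodMk_nhds tendsto_id
    filter_upwards [h1.eventually (hf.trans hL2)] with t ht hne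
    refine (ht hne (crossPt c y s b z Ai t (Sum.inr β)).2).mpr ⟨?_, ?_⟩
    · show A β (b β + Ai β ((t / 2) ^ 2) - b β) = (t / 2) ^ 2
      rw [add_sub_cancel_left, hAi]
    · show z β + t / 2 - (z β + t / 2) ∈ L2
      rw [sub_self]
      exact L2.zero_mem

/-- Different labels give different crossings modulo the lattice. -/
theorem IsMultisection.crossPt_ne (h : IsMultisection L1 L2 C k c y s b z A) (hL1 : Disc L1)
    (hL2 : Disc L2) (Ai : B → ℂ →L[ℝ] ℂ) {ι ι' : Lab Q B k} (hne : ι ≠ ι') :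
    ∀ᶠ t : ℂ in 𝓝 0, t ≠ 0 → ¬ ((crossPt c y s b z Ai t ι).1 - (crossPt c y s b z Ai t ι').1 ∈ L1 ∧
      (crossPt c y s b z Ai t ι).2 - (crossPt c y s b z Ai t ι').2 ∈ L2) := by
  have h0 := crossPt_tendsto (c := c) (y := y) (s := s) (b := b) (z := z) Ai ι
  have h0' := crossPt_tendsto (c := c) (y := y) (s := s) (b := b) (z := z) Ai ι'
  have g1 := ((continuous_fst.tendsto _).comp h0).sub ((continuous_fst.tendsto _).comp h0')
  have g2 := ((continuous_snd.tendsto _).comp h0).sub ((continuous_snd.tendsto _).comp h0')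
  rcases ι with ⟨a, p⟩ | β
  · rcases ι' with ⟨a', p'⟩ | β'
    · by_cases haa : a = a'
      · subst haa
        simp only [sub_self] at g1 g2
        obtain ⟨m, f, hf⟩ := h.mult a
        filter_upwards [ev_small hL1 g1, ev_small hL2 g2] with t e1 e2 ht ⟨h1, h2⟩
        apply hne
        have e1' : (c a + t / (s a p.1.1 - s a p.1.2)) - (c a + t / (s a p'.1.1 - s a p'.1.2)) = 0 :=
          e1 h1
        have e2' : (y a + s a p.1.1 * (t / (s a p.1.1 - s a p.1.2))) -
          (y a + s a p'.1.1 * (t / (s a p'.1.1 - s a p'.1.2))) = 0 := e2 h2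
        have hn : s a p.1.1 - s a p.1.2 ≠ 0 := sub_ne_zero.mpr fun h => p.2 (hf.inj h)
        have hn' : s a p'.1.1 - s a p'.1.2 ≠ 0 := sub_ne_zero.mpr fun h => p'.2 (hf.inj h)
        have e3 : t / (s a p.1.1 - s a p.1.2) = t / (s a p'.1.1 - s a p'.1.2) := by
          linear_combination e1'
        have e4 : t / (s a p'.1.1 - s a p'.1.2) ≠ 0 := div_ne_zero ht hn'
        have e5 : s a p.1.1 = s a p'.1.1 := by
          rw [e3] at e2'
          have : (s a p.1.1 - s a p'.1.1) * (t / (s a p'.1.1 - s a p'.1.2)) = 0 := by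
            linear_combination e2'
          rcases mul_eq_zero.mp this with h6 | h6
          · exact sub_eq_zero.mp h6
          · exact absurd h6 e4
        have e6 : s a p.1.2 = s a p'.1.2 := by
          rw [div_eq_div_iff hn hn'] at e3
          have := mul_left_cancel₀ ht e3
          linear_combination e5 + this
        have e7 : p = p' := Subtype.ext (Prod.ext (hf.inj e5) (hf.inj e6))
        rw [e7]
      · have := ev_notMem hL1 g1 (h.ne_mult a a' haa)
        filter_upwards [this] with t e1 _ h1 using e1 h1.1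
    · have := ev_notMem hL1 g1 (h.ne a β')
      filter_upwards [this] with t e1 _ h1 using e1 h1.1
  · rcases ι' with ⟨a', p'⟩ | β'
    · have := ev_notMem hL1 g1 (z := b β - c a') (by
        intro hm
        apply h.ne a' β
        have := L1.neg_mem hm
        rwa [neg_sub] at this)
      filter_upwards [this] with t e1 _ h1 using e1 h1.1
    · have := ev_notMem hL1 g1 (h.ne_branch β β' fun h => hne (by rw [h]))
      filter_upwards [this] with t e1 _ h1 using e1 h1.1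

/-- **The self-intersection number.** For every small translation `t ≠ 0` along the fibre, `C` meets
its translate only positively and transversally, and the number of these points in the torus is the
sum over the multiple points of `k (k - 1)` plus the number of branch points. -/
theorem IsMultisection.self [Fintype Q] [Fintype B]
    (h : IsMultisection L1 L2 C k c y s b z A) (hL1 : Disc L1) (hL2 : Disc L2)
    (hK : ∃ K : Set ℂ, IsCompact K ∧ ∀ x, ∃ l ∈ L1, x - l ∈ K) :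
    ∀ᶠ t : ℂ in 𝓝 0, t ≠ 0 → (∀ p ∈ C ∩ tr C t, PosCross C (tr C t) p) ∧
      ((QuotientAddGroup.mk : ℂ × ℂ → (ℂ × ℂ) ⧸ L1.prod L2) '' (C ∩ tr C t)).ncard =
        ∑ a, k a * (k a - 1) + Fintype.card B := by
  classical
  obtain ⟨K, hKc, hK⟩ := hK
  choose Ai hAi using fun β => exists_inv (A := A β) (by
    obtain ⟨m, f, hf⟩ := h.branch β
    exact hf.pos)
  have e1 := hKc.eventually_forall_of_forall_eventually (x₀ := (0 : ℂ))
    (P := fun t x => t ≠ 0 → ∀ η, (x, η) ∈ C → (x, η - t) ∈ C →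
      (∃ ι, x - (crossPt c y s b z Ai t ι).1 ∈ L1 ∧
        η - (crossPt c y s b z Ai t ι).2 ∈ L2) ∧ PosCross C (tr C t) (x, η))
    (fun x _ => h.near hL2 (fun β v => (hAi β).2 v) x)
  have e2 : ∀ᶠ t : ℂ in 𝓝 0, ∀ ι, t ≠ 0 → crossPt c y s b z Ai t ι ∈ C ∩ tr C t := by
    rw [eventually_all]
    exact fun ι => h.crossPt_mem hL2 (fun β v => (hAi β).1 v) ι
  have e3 : ∀ᶠ t : ℂ in 𝓝 0, ∀ ι ι', ι ≠ ι' → t ≠ 0 →
      ¬ ((crossPt c y s b z Ai t ι).1 - (crossPt c y s b z Ai t ι').1 ∈ L1 ∧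
      (crossPt c y s b z Ai t ι).2 - (crossPt c y s b z Ai t ι').2 ∈ L2) := by
    rw [eventually_all]
    intro ι
    rw [eventually_all]
    intro ι'
    by_cases hne : ι = ι'
    · exact Eventually.of_forall fun t ht => absurd hne ht
    · filter_upwards [h.crossPt_ne hL1 hL2 Ai hne] with t ht _ using ht
  filter_upwards [e1, e2, e3] with t h1 h2 h3 ht
  have key : ∀ p ∈ C ∩ tr C t, (∃ ι, p.1 - (crossPt c y s b z Ai t ι).1 ∈ L1 ∧
      p.2 - (crossPt c y s b z Ai t ι).2 ∈ L2) ∧ PosCross C (tr C t) p := by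
    rintro ⟨x, η⟩ ⟨hp1, hp2⟩
    obtain ⟨l, hl, hxK⟩ := hK x
    have hz : (0 : ℂ) ∈ L2 := L2.zero_mem
    have h4 : (x - l, η) ∈ C := by
      have := (h.per_iff hl hz (x, η)).mp hp1
      simpa using this
    have h5 : (x - l, η - t) ∈ C := by
      have := (h.per_iff hl hz (x, η - t)).mp hp2
      simpa using this
    obtain ⟨⟨ι, h6, h7⟩, h8⟩ := h1 _ hxK ht η h4 h5
    refine ⟨⟨ι, ?_, h7⟩, ?_⟩
    · have := L1.add_mem h6 hl
      convert this using 1
      ring
    · refine PosCross.shift (l := l) ?_ ?_ h8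
      · intro p
        have := h.per_iff hl hz p
        rwa [sub_zero] at this
      · intro p
        have := h.tr_iff (t := t) hl hz p
        rwa [sub_zero] at this
  refine ⟨fun p hp => (key p hp).2, ?_⟩
  have himg : (QuotientAddGroup.mk : ℂ × ℂ → (ℂ × ℂ) ⧸ L1.prod L2) '' (C ∩ tr C t) =
      Set.range fun ι => (QuotientAddGroup.mk (crossPt c y s b z Ai t ι) : (ℂ × ℂ) ⧸ L1.prod L2) := by
    ext v
    constructor
    · rintro ⟨p, hp, rfl⟩
      obtain ⟨ι, h4, h5⟩ := (key p hp).1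
      refine ⟨ι, ?_⟩
      show (QuotientAddGroup.mk (crossPt c y s b z Ai t ι) : (ℂ × ℂ) ⧸ L1.prod L2) =
        QuotientAddGroup.mk p
      rw [QuotientAddGroup.eq]
      refine AddSubgroup.mem_prod.mpr ⟨?_, ?_⟩
      · show -(crossPt c y s b z Ai t ι).1 + p.1 ∈ L1
        rw [neg_add_eq_sub]
        exact h4
      · show -(crossPt c y s b z Ai t ι).2 + p.2 ∈ L2
        rw [neg_add_eq_sub]
        exact h5
    · rintro ⟨ι, rfl⟩
      exact ⟨_, h2 ι ht, rfl⟩
  have hinj : Function.Injective fun ι =>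
      (QuotientAddGroup.mk (crossPt c y s b z Ai t ι) : (ℂ × ℂ) ⧸ L1.prod L2) := by
    intro ι ι' hι
    by_contra hne
    apply h3 ι' ι (fun h => hne h.symm) ht
    have h4 : (QuotientAddGroup.mk (crossPt c y s b z Ai t ι) : (ℂ × ℂ) ⧸ L1.prod L2) =
      QuotientAddGroup.mk (crossPt c y s b z Ai t ι') := hι
    rw [QuotientAddGroup.eq] at h4
    obtain ⟨h5, h6⟩ := AddSubgroup.mem_prod.mp h4
    refine ⟨?_, ?_⟩
    · rw [← neg_add_eq_sub]
      exact h5
    · rw [← neg_add_eq_sub]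
      exact h6
  rw [himg, ← Set.image_univ, Set.ncard_image_of_injective _ hinj, Set.ncard_univ,
    Nat.card_eq_fintype_card, Fintype.card_sum, Fintype.card_sigma]
  congr 1
  refine Finset.sum_congr rfl fun a _ => ?_
  rw [Fintype.card_subtype]
  have h9 : (Finset.univ.filter fun p : Fin (k a) × Fin (k a) => p.1 ≠ p.2) =
      (Finset.univ : Finset (Fin (k a))).offDiag := by
    ext p
    simp
  rw [h9, Finset.offDiag_card, Finset.card_univ, Fintype.card_fin, Nat.mul_sub, mul_one]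

end main

end Pool.Agent.Helper29.SA
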