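import Pool.Agent.Helper42.SA.Df
import Pool.Agent.Helper29.SA.Self

set_option autoImplicit false

/-!
# The self-intersection number of a multisection
-/

namespace Pool.Agent.Helper29.SA

open Filter Topology Pool.Agent.Helper42.SA

theorem mem_lat {p q : ℕ} {z : ℂ} : z ∈ lat p q ↔ ∃ a b : ℤ, z = ⟨(a : ℝ) * p, (b : ℝ) * q⟩ :=
  Iff.rfl

theorem disc_lat {p q : ℕ} (hp : 0 < p) (hq : 0 < q) : Disc (lat p q) := by
  refine ⟨1, one_pos, ?_⟩
  intro l hl h
  obtain ⟨a, b, rfl⟩ := mem_lat.mp hl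
  have hp' : (1 : ℝ) ≤ p := by exact_mod_cast hp
  have hq' : (1 : ℝ) ≤ q := by exact_mod_cast hq
  have h1 : |(a : ℝ) * p| < 1 :=
    lt_of_le_of_lt (Complex.abs_re_le_norm (⟨(a : ℝ) * p, (b : ℝ) * q⟩ : ℂ)) h
  have h2 : |(b : ℝ) * q| < 1 :=
    lt_of_le_of_lt (Complex.abs_im_le_norm (⟨(a : ℝ) * p, (b : ℝ) * q⟩ : ℂ)) h
  have key : ∀ (a : ℤ) (p : ℝ), 1 ≤ p → |(a : ℝ) * p| < 1 → a = 0 := by
    intro a p hp h
    rw [abs_mul, abs_of_pos (show (0 : ℝ) < p by linarith)] at h
    have h3 : |(a : ℝ)| < 1 := by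
      by_contra hc
      push Not at hc
      nlinarith [abs_nonneg (a : ℝ)]
    have h4 : |a| < 1 := by exact_mod_cast h3
    exact Int.abs_lt_one_iff.mp h4
  rw [key a p hp' h1, key b q hq' h2]
  apply Complex.ext <;> simp

theorem cocompact_lat {p q : ℕ} (hp : 0 < p) (hq : 0 < q) :
    ∃ K : Set ℂ, IsCompact K ∧ ∀ x, ∃ l ∈ lat p q, x - l ∈ K := by
  have hp' : (0 : ℝ) < p := by exact_mod_cast hp
  have hq' : (0 : ℝ) < q := by exact_mod_cast hq
  refine ⟨Metric.closedBall 0 (p + q), isCompact_closedBall _ _, fun x => ?_⟩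
  refine ⟨⟨(⌊x.re / p⌋ : ℝ) * p, (⌊x.im / q⌋ : ℝ) * q⟩, ⟨_, _, rfl⟩, ?_⟩
  rw [mem_closedBall_zero_iff]
  refine (Complex.norm_le_abs_re_add_abs_im _).trans ?_
  have key : ∀ (u p : ℝ), 0 < p → |u - (⌊u / p⌋ : ℝ) * p| ≤ p := by
    intro u p hp
    have h1 := Int.floor_le (u / p)
    have h2 := Int.lt_floor_add_one (u / p)
    rw [le_div_iff₀ hp] at h1
    rw [div_lt_iff₀ hp] at h2
    rw [abs_of_nonneg (by linarith)]
    linarith
  exact add_le_add (key _ _ hp') (key _ _ hq')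

theorem nearMult_of_sheets {Λ : AddSubgroup ℂ} {K : ℝ} {U : Set ℂ} {m : ℕ} {f : Fin m → ℂ → ℂ}
    (hU : IsOpen U) {x : ℂ} (hx : x ∈ U) (h : Sheets Λ K U f) (j : Fin m) :
    ∀ᶠ x' in 𝓝 x, ContinuousAt (f j) x' := by
  filter_upwards [hU.mem_nhds hx] with x' hx'
  exact (h.smooth j).continuousOn.continuousAt (hU.mem_nhds hx')

/-- The local data of a multisection in the sense of `Df`. -/
theorem isMultisection {p q M : ℕ} {K : ℝ} {n r : ℕ} {C : Set (ℂ × ℂ)} {c₁ c₂ b₁ b₂ : ℂ}
    (h : Multisection p q M K n r C c₁ c₂ b₁ b₂) :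
    ∃ (y : Fin 2 → ℂ) (s : Fin 2 → Fin r → ℂ) (z : Fin 2 → ℂ) (A : Fin 2 → ℂ →L[ℝ] ℂ),
      IsMultisection (lat p q) (lat M M) C (fun _ : Fin 2 => r) ![c₁, c₂] y s ![b₁, b₂] z A := by
  have hc : ∀ a : Fin 2, ClusterAt (lat M M) K n r C (![c₁, c₂] a) := by
    intro a
    fin_cases a
    · exact h.cluster c₁ (by simp)
    · exact h.cluster c₂ (by simp)
  have hb : ∀ a : Fin 2, BranchAt (lat M M) K n C (![b₁, b₂] a) := by
    intro a
    fin_cases a
    · exact h.branch b₁ (by simp)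
    · exact h.branch b₂ (by simp)
  choose U hUo hUc y s g hs hsh h1 h2 h3 using hc
  choose V hVo hVb z A g' hA hsh' h4 h5 using hb
  refine ⟨y, s, z, A, ?_, ?_, ?_, ?_, ?_, ?_, ?_⟩
  · intro pt hpt l hl l' hl'
    exact (h.periodic l hl l' hl' pt.1 pt.2).mpr hpt
  · intro a
    refine ⟨n - r, g a, ?_, nearMult_of_sheets (hUo a) (hUc a) (hsh a), hs a, ?_, ?_⟩
    · filter_upwards [(hUo a).mem_nhds (hUc a)] with x hx using h3 a x hx
    · intro j j' hj hm
      exact hj ((hsh a).disj j j' _ (hUc a) hm)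
    · intro i j
      have := h2 a _ (hUc a) i j
      rwa [sub_self, mul_zero, add_zero] at this
  · intro β
    refine ⟨n - 2, g' β, ?_, nearMult_of_sheets (hVo β) (hVb β) (hsh' β), hA β, ?_, ?_⟩
    · filter_upwards [(hVo β).mem_nhds (hVb β)] with x hx y'
      rw [h5 β x hx]
      refine or_congr ?_ Iff.rfl
      constructor
      · rintro ⟨w, hw, hl⟩
        refine ⟨_, hl, ?_⟩
        rw [← hw]
        ring
      · rintro ⟨l, hl, hw⟩
        refine ⟨_, hw, ?_⟩
        convert hl using 1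
        ring
    · intro j j' hj hm
      exact hj ((hsh' β).disj j j' _ (hVb β) hm)
    · intro j
      have := (h4 β _ (hVb β) 0 (by simp)).2 j
      rwa [add_zero] at this
  · intro x hx1 hx2
    obtain ⟨W, hWo, hWx, f, hf, hm⟩ := h.regular x (by
      intro w hw
      simp only [Set.mem_insert_iff, Set.mem_singleton_iff] at hw
      rcases hw with rfl | rfl | rfl | rfl
      · exact hx1 0
      · exact hx1 1
      · exact hx2 0
      · exact hx2 1)
    refine ⟨n, f, ?_, nearMult_of_sheets hWo hWx hf, fun i => i.elim0, ?_, fun i => i.elim0⟩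
    · filter_upwards [hWo.mem_nhds hWx] with x' hx' y'
      rw [hm x' hx' y']
      constructor
      · exact Or.inr
      · rintro (⟨i, -⟩ | h')
        · exact i.elim0
        · exact h'
    · intro j j' hj hm'
      exact hj (hf.disj j j' _ hWx hm')
  · intro a a' haa
    fin_cases a <;> fin_cases a'
    · exact absurd rfl haa
    · exact h.cc
    · intro hm
      apply h.cc
      have := (lat p q).neg_mem hm
      rwa [neg_sub] at this
    · exact absurd rfl haa
  · intro a a' haa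
    fin_cases a <;> fin_cases a'
    · exact absurd rfl haa
    · exact h.bb
    · intro hm
      apply h.bb
      have := (lat p q).neg_mem hm
      rwa [neg_sub] at this
    · exact absurd rfl haa
  · intro a β
    fin_cases a <;> fin_cases β
    · exact h.cb c₁ (by simp) b₁ (by simp)
    · exact h.cb c₁ (by simp) b₂ (by simp)
    · exact h.cb c₂ (by simp) b₁ (by simp)
    · exact h.cb c₂ (by simp) b₂ (by simp)

/-- **The self-intersection number of a multisection with two `r`-fold points and two branch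
points.** For every small translation `t ≠ 0` along the fibre, `C` meets its translate only
positively and transversally, in exactly `2 r (r - 1) + 2` points of the torus. -/
theorem self_intersection {p q M : ℕ} {K : ℝ} {n r : ℕ} {C : Set (ℂ × ℂ)} {c₁ c₂ b₁ b₂ : ℂ}
    (h : Multisection p q M K n r C c₁ c₂ b₁ b₂) :
    ∀ᶠ t : ℂ in 𝓝 0, t ≠ 0 → (∀ w ∈ C ∩ tr C t, PosCross C (tr C t) w) ∧
      ((QuotientAddGroup.mk : ℂ × ℂ → (ℂ × ℂ) ⧸ (lat p q).prod (lat M M)) ''
        (C ∩ tr C t)).ncard = 2 * (r * (r - 1)) + 2 := by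
  obtain ⟨y, s, z, A, hC⟩ := isMultisection h
  have := hC.self (disc_lat h.hp h.hq) (disc_lat h.hM h.hM) (cocompact_lat h.hp h.hq)
  simpa using this

end Pool.Agent.Helper29.SA
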