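import Mathlib

set_option autoImplicit false

/-!
# The intersection of a multisection of the four-torus with its translates along the fibre

`C` is a closed subset of `ℂ × ℂ` which is invariant under `L1 × L2`; near a fibre it is a union of
graphs (modulo `L2`), near the fibre of a multiple point `k` of the graphs are complex lines through
the point, near the fibre of a branch point two of the graphs are replaced by a parabola.
-/

namespace Pool.Agent.Helper29.SA

open Filter Topology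

/-- Near the fibre over `c` the set `C` consists, modulo `L2`, of the complex lines of the slopes
`s i` through the point `(c, y₀)` and of the graphs of `m` continuous functions; no two of these
meet over a neighbourhood of `c`, except that the lines meet over `c`. -/
structure NearMult (L2 : AddSubgroup ℂ) (C : Set (ℂ × ℂ)) {k m : ℕ} (c y₀ : ℂ) (s : Fin k → ℂ)
    (f : Fin m → ℂ → ℂ) : Prop where
  mem : ∀ᶠ x in 𝓝 c, ∀ y, (x, y) ∈ C ↔ (∃ i, y - (y₀ + s i * (x - c)) ∈ L2) ∨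
    ∃ j, y - f j x ∈ L2
  cont : ∀ j, ∀ᶠ x in 𝓝 c, ContinuousAt (f j) x
  inj : Function.Injective s
  ne : ∀ j j', j ≠ j' → f j c - f j' c ∉ L2
  ne' : ∀ (_ : Fin k) (j : Fin m), y₀ - f j c ∉ L2

/-- Near the fibre over `b` the set `C` consists, modulo `L2`, of the parabola
`(y - y₀) ^ 2 = A (x - b)` and of the graphs of `m` continuous functions; these do not meet over a
neighbourhood of `b`. The real linear map `A` has positive determinant. -/
structure NearBranch (L2 : AddSubgroup ℂ) (C : Set (ℂ × ℂ)) {m : ℕ} (b y₀ : ℂ) (A : ℂ →L[ℝ] ℂ)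
    (f : Fin m → ℂ → ℂ) : Prop where
  mem : ∀ᶠ x in 𝓝 b, ∀ y, (x, y) ∈ C ↔ (∃ l ∈ L2, (y - y₀ - l) ^ 2 = A (x - b)) ∨
    ∃ j, y - f j x ∈ L2
  cont : ∀ j, ∀ᶠ x in 𝓝 b, ContinuousAt (f j) x
  pos : 0 < A.det
  ne : ∀ j j', j ≠ j' → f j b - f j' b ∉ L2
  ne' : ∀ j, y₀ - f j b ∉ L2

/-- `L` is a discrete subgroup. -/
def Disc (L : AddSubgroup ℂ) : Prop := ∃ r : ℝ, 0 < r ∧ ∀ l ∈ L, ‖l‖ < r → l = 0

theorem Disc.isClosed {L : AddSubgroup ℂ} (h : Disc L) : IsClosed (L : Set ℂ) := by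
  obtain ⟨r, hr, h⟩ := h
  have : DiscreteTopology L := by
    rw [discreteTopology_iff_isOpen_singleton_zero]
    refine ⟨Metric.ball 0 r, Metric.isOpen_ball, ?_⟩
    ext l
    simp only [Set.mem_preimage, Metric.mem_ball, dist_zero_right, Set.mem_singleton_iff]
    constructor
    · intro hl
      exact Subtype.ext (h l l.2 hl)
    · intro hl
      rw [hl]
      simpa using hr
  exact AddSubgroup.isClosed_of_discrete

theorem ev_notMem {L : AddSubgroup ℂ} (hL : Disc L) {α : Type*} {F : Filter α} {g : α → ℂ} {z : ℂ}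
    (hg : Tendsto g F (𝓝 z)) (hz : z ∉ L) : ∀ᶠ a in F, g a ∉ L :=
  hg.eventually (hL.isClosed.isOpen_compl.mem_nhds hz)

theorem ev_small {L : AddSubgroup ℂ} (hL : Disc L) {α : Type*} {F : Filter α} {g : α → ℂ}
    (hg : Tendsto g F (𝓝 0)) : ∀ᶠ a in F, g a ∈ L → g a = 0 := by
  obtain ⟨r, hr, h⟩ := hL
  have h1 : ∀ᶠ a in F, ‖g a‖ < r := by
    have := hg.norm
    rw [norm_zero] at this
    exact this.eventually_lt_const hr
  filter_upwards [h1] with a ha hm using h _ hm ha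

/-- The translates meet near a multiple point in the expected points only. -/
theorem NearMult.trans {L2 : AddSubgroup ℂ} {C : Set (ℂ × ℂ)} (hL : Disc L2) {k m : ℕ} {c y₀ : ℂ}
    {s : Fin k → ℂ} {f : Fin m → ℂ → ℂ} (h : NearMult L2 C c y₀ s f) :
    ∀ᶠ p : ℂ × ℂ in 𝓝 (c, 0), p.2 ≠ 0 → ∀ y, ((p.1, y) ∈ C ∧ (p.1, y - p.2) ∈ C) ↔
      ∃ i i', i ≠ i' ∧ (s i - s i') * (p.1 - c) = p.2 ∧ y - (y₀ + s i * (p.1 - c)) ∈ L2 := by
  have h1 : Tendsto (fun p : ℂ × ℂ => p.1) (𝓝 (c, 0)) (𝓝 c) := continuous_fst.tendsto (c, 0)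
  have h2 : Tendsto (fun p : ℂ × ℂ => p.2) (𝓝 (c, 0)) (𝓝 0) := continuous_snd.tendsto (c, 0)
  have h3 : Tendsto (fun p : ℂ × ℂ => p.1 - c) (𝓝 (c, 0)) (𝓝 0) := by
    have := h1.sub_const c
    rwa [sub_self] at this
  have hf : ∀ j, Tendsto (fun p : ℂ × ℂ => f j p.1) (𝓝 (c, 0)) (𝓝 (f j c)) := fun j =>
    (h.cont j).self_of_nhds.tendsto.comp h1
  have hl : ∀ i, Tendsto (fun p : ℂ × ℂ => y₀ + s i * (p.1 - c)) (𝓝 (c, 0)) (𝓝 y₀) := by
    intro i
    have := (h3.const_mul (s i)).const_add y₀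
    rwa [mul_zero, add_zero] at this
  have e1 : ∀ᶠ p : ℂ × ℂ in 𝓝 (c, 0), ∀ i i', (s i - s i') * (p.1 - c) - p.2 ∈ L2 →
      (s i - s i') * (p.1 - c) - p.2 = 0 := by
    rw [eventually_all]
    intro i
    rw [eventually_all]
    intro i'
    refine ev_small hL ?_
    have := (h3.const_mul (s i - s i')).sub h2
    rwa [mul_zero, sub_zero] at this
  have e2 : ∀ᶠ p : ℂ × ℂ in 𝓝 (c, 0), p.2 ∈ L2 → p.2 = 0 := ev_small hL h2
  have e3 : ∀ᶠ p : ℂ × ℂ in 𝓝 (c, 0), ∀ j j', j ≠ j' → f j p.1 - f j' p.1 - p.2 ∉ L2 := by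
    rw [eventually_all]
    intro j
    rw [eventually_all]
    intro j'
    by_cases hj : j = j'
    · exact Eventually.of_forall fun p hp => absurd hj hp
    · have := ev_notMem hL (((hf j).sub (hf j')).sub h2) (by rw [sub_zero]; exact h.ne j j' hj)
      filter_upwards [this] with p hp _ using hp
  have e4 : ∀ᶠ p : ℂ × ℂ in 𝓝 (c, 0), ∀ i j, y₀ + s i * (p.1 - c) - f j p.1 - p.2 ∉ L2 := by
    rw [eventually_all]
    intro i
    rw [eventually_all]
    intro j
    exact ev_notMem hL (((hl i).sub (hf j)).sub h2) (by rw [sub_zero]; exact h.ne' i j)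
  have e5 : ∀ᶠ p : ℂ × ℂ in 𝓝 (c, 0), ∀ i j, f j p.1 - (y₀ + s i * (p.1 - c)) - p.2 ∉ L2 := by
    rw [eventually_all]
    intro i
    rw [eventually_all]
    intro j
    refine ev_notMem hL (((hf j).sub (hl i)).sub h2) ?_
    rw [sub_zero]
    intro hm
    apply h.ne' i j
    have := L2.neg_mem hm
    rwa [neg_sub] at this
  filter_upwards [h1.eventually h.mem, e1, e2, e3, e4, e5] with p hp q1 q2 q3 q4 q5 hne y
  rw [hp, hp]
  constructor
  · rintro ⟨⟨i, hi⟩ | ⟨j, hj⟩, ⟨i', hi'⟩ | ⟨j', hj'⟩⟩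
    · have h4 : (s i - s i') * (p.1 - c) - p.2 ∈ L2 := by
        have := L2.sub_mem hi' hi
        convert this using 1
        ring
      have h5 := q1 i i' h4
      refine ⟨i, i', ?_, sub_eq_zero.mp h5, hi⟩
      rintro rfl
      rw [sub_self, zero_mul, zero_sub, neg_eq_zero] at h5
      exact hne h5
    · exact absurd (by
        have := L2.sub_mem hj' hi
        convert this using 1
        ring) (q4 i j')
    · exact absurd (by
        have := L2.sub_mem hi' hj
        convert this using 1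
        ring) (q5 i' j)
    · by_cases hjj : j = j'
      · subst hjj
        exact absurd (q2 (by
          have := L2.sub_mem hj hj'
          convert this using 1
          ring)) hne
      · exact absurd (by
          have := L2.sub_mem hj' hj
          convert this using 1
          ring) (q3 j j' hjj)
  · rintro ⟨i, i', _, h4, h5⟩
    refine ⟨Or.inl ⟨i, h5⟩, Or.inl ⟨i', ?_⟩⟩
    convert h5 using 1
    rw [← h4]
    ring

/-- The translates meet near a branch point in the expected point only. -/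
theorem NearBranch.trans {L2 : AddSubgroup ℂ} {C : Set (ℂ × ℂ)} (hL : Disc L2) {m : ℕ}
    {b y₀ : ℂ} {A : ℂ →L[ℝ] ℂ} {f : Fin m → ℂ → ℂ} (h : NearBranch L2 C b y₀ A f) :
    ∀ᶠ p : ℂ × ℂ in 𝓝 (b, 0), p.2 ≠ 0 → ∀ y, ((p.1, y) ∈ C ∧ (p.1, y - p.2) ∈ C) ↔
      A (p.1 - b) = (p.2 / 2) ^ 2 ∧ y - (y₀ + p.2 / 2) ∈ L2 := by
  have h1 : Tendsto (fun p : ℂ × ℂ => p.1) (𝓝 (b, 0)) (𝓝 b) := continuous_fst.tendsto (b, 0)
  have h2 : Tendsto (fun p : ℂ × ℂ => p.2) (𝓝 (b, 0)) (𝓝 0) := continuous_snd.tendsto (b, 0)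
  have h3 : Tendsto (fun p : ℂ × ℂ => A (p.1 - b)) (𝓝 (b, 0)) (𝓝 0) := by
    have := (A.continuous.tendsto _).comp (h1.sub_const b)
    rwa [sub_self, map_zero] at this
  have hf : ∀ j, Tendsto (fun p : ℂ × ℂ => f j p.1) (𝓝 (b, 0)) (𝓝 (f j b)) := fun j =>
    (h.cont j).self_of_nhds.tendsto.comp h1
  -- the filter with the point of the parabola
  have hroot : ∀ (Q : ℂ → ℂ × ℂ → Prop), (∀ᶠ w : ℂ × (ℂ × ℂ) in 𝓝 (0, (b, 0)), Q w.1 w.2) →
      ∀ᶠ p : ℂ × ℂ in 𝓝 (b, 0), ∀ u, u ^ 2 = A (p.1 - b) → Q u p := by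
    intro Q hQ
    rw [nhds_prod_eq, eventually_prod_iff] at hQ
    obtain ⟨pa, hpa, pb, hpb, hQ⟩ := hQ
    rw [Metric.eventually_nhds_iff] at hpa
    obtain ⟨η, hη, hpa⟩ := hpa
    have h5 : ∀ᶠ p : ℂ × ℂ in 𝓝 (b, 0), ‖A (p.1 - b)‖ < η ^ 2 := by
      have := h3.norm
      rw [norm_zero] at this
      exact this.eventually_lt_const (by positivity)
    filter_upwards [h5, hpb] with p hp1 hp2 u hu
    refine hQ (hpa ?_) hp2
    rw [dist_zero_right]
    rw [← hu, norm_pow] at hp1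
    exact lt_of_pow_lt_pow_left₀ 2 hη.le hp1
  have hu : Tendsto (fun w : ℂ × (ℂ × ℂ) => w.1) (𝓝 (0, (b, 0))) (𝓝 0) :=
    continuous_fst.tendsto (0, (b, 0))
  have hs : Tendsto (fun w : ℂ × (ℂ × ℂ) => w.2) (𝓝 (0, (b, 0))) (𝓝 (b, 0)) :=
    continuous_snd.tendsto (0, (b, 0))
  have e2 : ∀ᶠ p : ℂ × ℂ in 𝓝 (b, 0), p.2 ∈ L2 → p.2 = 0 := ev_small hL h2
  have e3 : ∀ᶠ p : ℂ × ℂ in 𝓝 (b, 0), ∀ j j', j ≠ j' → f j p.1 - f j' p.1 - p.2 ∉ L2 := by
    rw [eventually_all]
    intro j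
    rw [eventually_all]
    intro j'
    by_cases hj : j = j'
    · exact Eventually.of_forall fun p hp => absurd hj hp
    · have := ev_notMem hL (((hf j).sub (hf j')).sub h2) (by rw [sub_zero]; exact h.ne j j' hj)
      filter_upwards [this] with p hp _ using hp
  have e4 : ∀ᶠ p : ℂ × ℂ in 𝓝 (b, 0), ∀ u, u ^ 2 = A (p.1 - b) →
      ∀ j, y₀ + u - f j p.1 - p.2 ∉ L2 := by
    refine hroot (fun u p => ∀ j, y₀ + u - f j p.1 - p.2 ∉ L2) ?_
    rw [eventually_all]
    intro j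
    refine ev_notMem hL (((hu.const_add y₀).sub ((hf j).comp hs)).sub (h2.comp hs)) ?_
    rw [sub_zero, add_zero]
    exact h.ne' j
  have e5 : ∀ᶠ p : ℂ × ℂ in 𝓝 (b, 0), ∀ u, u ^ 2 = A (p.1 - b) →
      ∀ j, f j p.1 - (y₀ + u) - p.2 ∉ L2 := by
    refine hroot (fun u p => ∀ j, f j p.1 - (y₀ + u) - p.2 ∉ L2) ?_
    rw [eventually_all]
    intro j
    refine ev_notMem hL ((((hf j).comp hs).sub (hu.const_add y₀)).sub (h2.comp hs)) ?_
    rw [sub_zero, add_zero]
    intro hm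
    apply h.ne' j
    have := L2.neg_mem hm
    rwa [neg_sub] at this
  have e6 : ∀ᶠ p : ℂ × ℂ in 𝓝 (b, 0), ∀ u, u ^ 2 = A (p.1 - b) →
      ∀ u', u' ^ 2 = A (p.1 - b) → u - u' - p.2 ∈ L2 → u - u' - p.2 = 0 := by
    obtain ⟨r, hr, hL'⟩ := hL
    have h5 : ∀ᶠ p : ℂ × ℂ in 𝓝 (b, 0), ∀ u, u ^ 2 = A (p.1 - b) → ‖u‖ < r / 3 := by
      refine hroot (fun u p => ‖u‖ < r / 3) ?_
      have := hu.norm
      rw [norm_zero] at this
      exact this.eventually_lt_const (by positivity)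
    have h6 : ∀ᶠ p : ℂ × ℂ in 𝓝 (b, 0), ‖p.2‖ < r / 3 := by
      have := h2.norm
      rw [norm_zero] at this
      exact this.eventually_lt_const (by positivity)
    filter_upwards [h5, h6] with p hp1 hp2 u hu u' hu' hm
    refine hL' _ hm ?_
    have h7 := norm_sub_le (u - u') p.2
    have h8 := norm_sub_le u u'
    have h9 := hp1 u hu
    have h10 := hp1 u' hu'
    linarith
  filter_upwards [h1.eventually h.mem, e2, e3, e4, e5, e6] with p hp q2 q3 q4 q5 q6 hne y
  rw [hp, hp]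
  constructor
  · rintro ⟨⟨l, hl, hu⟩ | ⟨j, hj⟩, ⟨l', hl', hu'⟩ | ⟨j', hj'⟩⟩
    · have h4 := q6 _ hu _ hu' (by
        have := L2.sub_mem hl' hl
        convert this using 1
        ring)
      have h5 : y - p.2 - y₀ - l' = (y - y₀ - l) - p.2 := by
        linear_combination -h4
      rw [h5] at hu'
      have h6 : p.2 * (p.2 - 2 * (y - y₀ - l)) = 0 := by
        have := hu'.trans hu.symm
        linear_combination this
      have h7 : y - y₀ - l = p.2 / 2 := by
        rcases mul_eq_zero.mp h6 with h7 | h7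
        · exact absurd h7 hne
        · linear_combination (-1 / 2 : ℂ) * h7
      refine ⟨?_, ?_⟩
      · rw [← hu, h7]
      · have : y - (y₀ + p.2 / 2) = l := by
          rw [← h7]
          ring
        rw [this]
        exact hl
    · exact absurd (by
        have := L2.sub_mem hj' hl
        convert this using 1
        ring) (q4 _ hu j')
    · exact absurd (by
        have := L2.sub_mem hl' hj
        convert this using 1
        ring) (q5 _ hu' j)
    · by_cases hjj : j = j'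
      · subst hjj
        exact absurd (q2 (by
          have := L2.sub_mem hj hj'
          convert this using 1
          ring)) hne
      · exact absurd (by
          have := L2.sub_mem hj' hj
          convert this using 1
          ring) (q3 j j' hjj)
  · rintro ⟨h4, h5⟩
    refine ⟨Or.inl ⟨y - (y₀ + p.2 / 2), h5, ?_⟩, Or.inl ⟨y - (y₀ + p.2 / 2), h5, ?_⟩⟩
    · rw [h4]
      ring
    · rw [h4]
      ring

end Pool.Agent.Helper29.SA
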